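import Pool.Agent.W792.WA.Stm

/-!
Project WA (helper792), part WA-BASEJ: the averaged one-site function with a semicircle level.
-/

set_option autoImplicit false

namespace Pool.Agent.W335.WAB.BaseJ

open MeasureTheory Filter Pool.Agent.W792.LL Pool.Agent.W792.WA
open scoped Topology

/-! ### Algebra -/

theorem holder_alg {X X' y y' : ℂ} (h : X ^ 2 - 2 * y * X + 1 = 0)
    (h' : X' ^ 2 - 2 * y' * X' + 1 = 0) (hX : ‖X‖ ≤ 1) (hX' : ‖X'‖ ≤ 1) (hi : 0 ≤ X.im)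
    (hi' : 0 ≤ X'.im) : ‖X - X'‖ ^ 2 ≤ 2 * ‖y - y'‖ := by
  have e : (X - X') * (1 - X * X') = -(2 * (y - y') * (X * X')) := by
    linear_combination (-X') * h + X * h'
  have e1 : ‖X - X'‖ * ‖1 - X * X'‖ = 2 * ‖y - y'‖ * (‖X‖ * ‖X'‖) := by
    rw [← norm_mul, e, norm_neg, norm_mul, norm_mul, norm_mul]
    simp
  have e2 : ‖X - X'‖ ^ 2 ≤ ‖1 - X * X'‖ ^ 2 := by
    have h1 : ‖X‖ ^ 2 ≤ 1 := pow_le_one₀ (norm_nonneg _) hX
    have h2 : ‖X'‖ ^ 2 ≤ 1 := pow_le_one₀ (norm_nonneg _) hX'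
    have e3 : ‖1 - X * X'‖ ^ 2 - ‖X - X'‖ ^ 2 =
        (1 - ‖X‖ ^ 2) * (1 - ‖X'‖ ^ 2) + 4 * (X.im * X'.im) := by
      simp only [Complex.sq_norm, Complex.normSq_apply, Complex.sub_re, Complex.sub_im,
        Complex.one_re, Complex.one_im, Complex.mul_re, Complex.mul_im]
      ring
    have h3 : 0 ≤ (1 - ‖X‖ ^ 2) * (1 - ‖X'‖ ^ 2) := mul_nonneg (by linarith) (by linarith)
    have h4 : 0 ≤ X.im * X'.im := mul_nonneg hi hi'
    linarith
  have e4 : ‖X - X'‖ ≤ ‖1 - X * X'‖ := by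
    exact (pow_le_pow_iff_left₀ (norm_nonneg _) (norm_nonneg _) two_ne_zero).1 e2
  have e5 : ‖X‖ * ‖X'‖ ≤ 1 := mul_le_one₀ hX (norm_nonneg _) hX'
  have e6 : 0 ≤ ‖y - y'‖ := norm_nonneg _
  calc ‖X - X'‖ ^ 2 = ‖X - X'‖ * ‖X - X'‖ := by ring
    _ ≤ ‖X - X'‖ * ‖1 - X * X'‖ := mul_le_mul_of_nonneg_left e4 (norm_nonneg _)
    _ = 2 * ‖y - y'‖ * (‖X‖ * ‖X'‖) := e1
    _ ≤ 2 * ‖y - y'‖ * 1 := mul_le_mul_of_nonneg_left e5 (by linarith)
    _ = _ := by ring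

theorem im_lower {X y : ℂ} (h : X ^ 2 - 2 * y * X + 1 = 0) (hX : ‖X‖ ≤ 1) (hi : 0 ≤ X.im)
    {Y : ℝ} (hre : |y.re| ≤ 3 / 8) (hy : ‖y‖ ≤ Y) : 9 / 10 / (2 * Y + 1) ≤ X.im := by
  have hY : 0 ≤ Y := (norm_nonneg _).trans hy
  have hX0 : X ≠ 0 := by
    rintro rfl
    simp at h
  have hp : 0 < ‖X‖ := norm_pos_iff.2 hX0
  have hsq : ‖X‖ ^ 2 = X.re ^ 2 + X.im ^ 2 := by
    rw [Complex.sq_norm, Complex.normSq_apply]; ring
  have hr : X.re ^ 2 - X.im ^ 2 - 2 * (y.re * X.re - y.im * X.im) + 1 = 0 := by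
    have := congrArg Complex.re h
    simp [pow_two] at this
    linarith
  have hm : 2 * (X.re * X.im) - 2 * (y.re * X.im + y.im * X.re) = 0 := by
    have := congrArg Complex.im h
    simp [pow_two] at this
    linarith
  have h1 : X.re * (‖X‖ ^ 2 + 1) = 2 * ‖X‖ ^ 2 * y.re := by
    rw [hsq]
    linear_combination X.re * hr + X.im * hm
  have h2 : |X.re| * (‖X‖ ^ 2 + 1) ≤ 3 / 4 * ‖X‖ ^ 2 := by
    have e : |X.re| * (‖X‖ ^ 2 + 1) = 2 * ‖X‖ ^ 2 * |y.re| := by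
      have := congrArg abs h1
      rw [abs_mul, abs_mul, abs_of_pos (by positivity : 0 < ‖X‖ ^ 2 + 1),
        abs_of_pos (by positivity : 0 < 2 * ‖X‖ ^ 2)] at this
      exact this
    rw [e]
    have : 0 ≤ ‖X‖ ^ 2 := by positivity
    nlinarith
  have h3 : |X.re| ≤ 3 / 8 * ‖X‖ := by
    have h4 : |X.re| * (2 * ‖X‖) ≤ 3 / 4 * ‖X‖ ^ 2 := by
      refine le_trans (mul_le_mul_of_nonneg_left ?_ (abs_nonneg _)) h2
      nlinarith [sq_nonneg (‖X‖ - 1)]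
    by_contra hc
    push Not at hc
    nlinarith
  have h5 : 9 / 10 * ‖X‖ ≤ X.im := by
    have h6 : X.re ^ 2 ≤ (3 / 8 * ‖X‖) ^ 2 := by
      rw [← sq_abs]
      exact pow_le_pow_left₀ (abs_nonneg _) h3 2
    have h7 : (9 / 10 * ‖X‖) ^ 2 ≤ X.im ^ 2 := by nlinarith
    exact (pow_le_pow_iff_left₀ (by positivity) hi two_ne_zero).1 h7
  have h8 : 1 ≤ ‖X‖ * (2 * Y + 1) := by
    have e : (1 : ℂ) = X * (2 * y - X) := by linear_combination h
    have e1 : (1 : ℝ) = ‖X‖ * ‖2 * y - X‖ := by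
      rw [← norm_mul, ← e]; simp
    have e2 : ‖2 * y - X‖ ≤ 2 * Y + 1 := by
      refine (norm_sub_le _ _).trans ?_
      have : ‖2 * y‖ = 2 * ‖y‖ := by rw [norm_mul]; simp
      rw [this]
      linarith
    calc (1 : ℝ) = ‖X‖ * ‖2 * y - X‖ := e1
      _ ≤ _ := mul_le_mul_of_nonneg_left e2 hp.le
  have h9 : 9 / 10 / (2 * Y + 1) ≤ 9 / 10 * ‖X‖ := by
    rw [div_le_iff₀ (by linarith)]
    nlinarith
  linarith

/-! ### The function `M` -/

theorem cont_psi (ψ : C(UnitAddCircle, ℝ)) : Continuous fun φ : ℝ => ψ (φ : UnitAddCircle) :=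
  ψ.continuous.comp (AddCircle.continuous_mk' (1 : ℝ))

theorem inv_bound {y : ℂ} (hy : y.im < 0) (t : ℝ) : y + t ≠ 0 ∧ ‖1 / (y + t)‖ ≤ 1 / (-y.im) := by
  have h1 : -y.im ≤ ‖y + t‖ := by
    have := Complex.abs_im_le_norm (y + t)
    simp only [Complex.add_im, Complex.ofReal_im, add_zero] at this
    rw [abs_of_neg hy] at this
    exact this
  have h2 : 0 < ‖y + t‖ := by linarith
  refine ⟨norm_pos_iff.1 h2, ?_⟩
  rw [norm_div, norm_one]
  exact one_div_le_one_div_of_le (by linarith) h1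

theorem inv_im {y : ℂ} (hy : y.im < 0) (t : ℝ) : 0 ≤ (1 / (y + t)).im := by
  rw [one_div, Complex.inv_im]
  have : (y + t).im = y.im := by simp
  rw [this]
  exact div_nonneg (by linarith) (Complex.normSq_nonneg _)

/-- The averaged function. -/
noncomputable def Mf (ψ : C(UnitAddCircle, ℝ)) (w : ℂ) : ℂ :=
  ∫ φ in Set.Ioc (0 : ℝ) 1, 1 / (w + (ψ (φ : UnitAddCircle) : ℂ))

theorem cont_inv {y : ℂ} (hy : y.im < 0) : Continuous fun t : ℝ => 1 / (y + (t : ℂ)) := by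
  refine continuous_const.div (by fun_prop) fun t => (inv_bound hy t).1

theorem Mf_int (ψ : C(UnitAddCircle, ℝ)) {w : ℂ} (hw : w.im < 0) :
    Integrable (fun φ : ℝ => 1 / (w + (ψ (φ : UnitAddCircle) : ℂ)))
      (volume.restrict (Set.Ioc (0 : ℝ) 1)) := by
  refine Integrable.of_bound ?_ (1 / (-w.im)) (ae_of_all _ fun φ => (inv_bound hw _).2)
  exact ((cont_inv hw).comp (cont_psi ψ)).aestronglyMeasurable

theorem Mf_im (ψ : C(UnitAddCircle, ℝ)) {w : ℂ} (hw : w.im < 0) : 0 ≤ (Mf ψ w).im := by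
  have h := integral_im (Mf_int ψ hw)
  have h2 : (Mf ψ w).im = ∫ φ in Set.Ioc (0 : ℝ) 1,
      (1 / (w + (ψ (φ : UnitAddCircle) : ℂ))).im := h.symm
  rw [h2]
  exact integral_nonneg fun φ => inv_im hw _

theorem Mf_props {ψ : C(UnitAddCircle, ℝ)} (hψ : IsSemi ψ) {w : ℂ} (hw : w.im < 0) :
    (Mf ψ w / 2) ^ 2 - 2 * w * (Mf ψ w / 2) + 1 = 0 ∧ ‖Mf ψ w / 2‖ ≤ 1 ∧ 0 ≤ (Mf ψ w / 2).im ∧
      ‖Mf ψ w‖ ≤ 2 := by
  have h1 : ‖Mf ψ w‖ ≤ 2 := (hψ.eqn w hw).1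
  have h2 : Mf ψ w ^ 2 / 4 - w * Mf ψ w + 1 = 0 := (hψ.eqn w hw).2
  refine ⟨by linear_combination h2, ?_, ?_, h1⟩
  · rw [norm_div]
    simp only [Complex.norm_ofNat]
    linarith
  · have h3 : (Mf ψ w / 2).im = (Mf ψ w).im / 2 := by
      have : (Mf ψ w / 2) = ((1 / 2 : ℝ) : ℂ) * Mf ψ w := by push_cast; ring
      rw [this, Complex.im_ofReal_mul]
      ring
    rw [h3]
    have := Mf_im ψ hw
    linarith

theorem Mf_holder {ψ : C(UnitAddCircle, ℝ)} (hψ : IsSemi ψ) {w w' : ℂ} (hw : w.im < 0)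
    (hw' : w'.im < 0) : ‖Mf ψ w - Mf ψ w'‖ ≤ 2 * Real.sqrt (2 * ‖w - w'‖) := by
  obtain ⟨a1, a2, a3, -⟩ := Mf_props hψ hw
  obtain ⟨b1, b2, b3, -⟩ := Mf_props hψ hw'
  have h := holder_alg a1 b1 a2 b2 a3 b3
  have h1 : ‖Mf ψ w / 2 - Mf ψ w' / 2‖ ≤ Real.sqrt (2 * ‖w - w'‖) := Real.le_sqrt_of_sq_le h
  have h2 : Mf ψ w - Mf ψ w' = 2 * (Mf ψ w / 2 - Mf ψ w' / 2) := by ring
  rw [h2, norm_mul]
  simp only [Complex.norm_ofNat]
  linarith

/-- The same, scaled and averaged. -/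
noncomputable def Hf (ψ : C(UnitAddCircle, ℝ)) (r : ℝ) (ρ : Measure ℝ) (y : ℂ) : ℂ :=
  ∫ a, (∫ φ in Set.Ioc (0 : ℝ) 1, 1 / (y + ((r * ψ (φ : UnitAddCircle) + a : ℝ) : ℂ))) ∂ρ

theorem inner_eq (ψ : C(UnitAddCircle, ℝ)) {r : ℝ} (hr : 0 < r) (y : ℂ) (a : ℝ) :
    ∫ φ in Set.Ioc (0 : ℝ) 1, 1 / (y + ((r * ψ (φ : UnitAddCircle) + a : ℝ) : ℂ)) =
      (1 / r : ℝ) * Mf ψ ((y + a) / r) := by
  unfold Mf
  rw [← integral_const_mul]
  congr 1
  funext φ
  have hr' : (r : ℂ) ≠ 0 := by exact_mod_cast hr.ne'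
  have e : y + ((r * ψ (φ : UnitAddCircle) + a : ℝ) : ℂ) =
      r * ((y + a) / r + (ψ (φ : UnitAddCircle) : ℂ)) := by
    push_cast
    field_simp
    ring
  rw [e, one_div, mul_inv]
  push_cast
  ring

theorem im_div {y : ℂ} (hy : y.im < 0) {r : ℝ} (hr : 0 < r) (a : ℝ) :
    ((y + a) / r).im < 0 := by
  rw [Complex.div_ofReal_im]
  simp only [Complex.add_im, Complex.ofReal_im, add_zero]
  exact div_neg_of_neg_of_pos hy hr

theorem inner_bound {ψ : C(UnitAddCircle, ℝ)} (hψ : IsSemi ψ) {r : ℝ} (hr : 0 < r) {y : ℂ}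
    (hy : y.im < 0) (a : ℝ) : ‖((1 / r : ℝ) : ℂ) * Mf ψ ((y + a) / r)‖ ≤ 2 / r := by
  rw [norm_mul, Complex.norm_real, Real.norm_of_nonneg (by positivity)]
  have := (Mf_props hψ (im_div hy hr a)).2.2.2
  calc 1 / r * ‖Mf ψ ((y + a) / r)‖ ≤ 1 / r * 2 := by gcongr
    _ = 2 / r := by ring

theorem inner_holder {ψ : C(UnitAddCircle, ℝ)} (hψ : IsSemi ψ) {r : ℝ} (hr : 0 < r) {y y' : ℂ}
    (hy : y.im < 0) (hy' : y'.im < 0) (a a' : ℝ) :
    ‖((1 / r : ℝ) : ℂ) * Mf ψ ((y + a) / r) - ((1 / r : ℝ) : ℂ) * Mf ψ ((y' + a') / r)‖ ≤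
      2 / r * Real.sqrt (2 / r * (‖y - y'‖ + |a - a'|)) := by
  rw [← mul_sub, norm_mul, Complex.norm_real, Real.norm_of_nonneg (by positivity)]
  have h1 := Mf_holder hψ (im_div hy hr a) (im_div hy' hr a')
  have h2 : ‖(y + a) / r - (y' + a') / r‖ ≤ (‖y - y'‖ + |a - a'|) / r := by
    rw [← sub_div, norm_div, Complex.norm_real, Real.norm_of_nonneg hr.le]
    gcongr
    have : y + a - (y' + a') = (y - y') + ((a - a' : ℝ) : ℂ) := by push_cast; ring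
    rw [this]
    refine (norm_add_le _ _).trans ?_
    rw [Complex.norm_real, Real.norm_eq_abs]
  calc 1 / r * ‖Mf ψ ((y + a) / r) - Mf ψ ((y' + a') / r)‖
      ≤ 1 / r * (2 * Real.sqrt (2 * ‖(y + a) / r - (y' + a') / r‖)) := by gcongr
    _ ≤ 1 / r * (2 * Real.sqrt (2 * ((‖y - y'‖ + |a - a'|) / r))) := by gcongr
    _ = _ := by
      have : 2 * ((‖y - y'‖ + |a - a'|) / r) = 2 / r * (‖y - y'‖ + |a - a'|) := by ring
      rw [this]
      ring

theorem inner_cont {ψ : C(UnitAddCircle, ℝ)} (hψ : IsSemi ψ) {r : ℝ} (hr : 0 < r) {y : ℂ}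
    (hy : y.im < 0) : Continuous fun a : ℝ => ((1 / r : ℝ) : ℂ) * Mf ψ ((y + a) / r) := by
  rw [continuous_iff_continuousAt]
  intro a₀
  rw [ContinuousAt, tendsto_iff_norm_sub_tendsto_zero]
  refine squeeze_zero (fun _ => norm_nonneg _) (fun a => inner_holder hψ hr hy hy a a₀) ?_
  have : Continuous fun a : ℝ => 2 / r * Real.sqrt (2 / r * (‖y - y‖ + |a - a₀|)) := by fun_prop
  have h2 := this.tendsto a₀
  simpa using h2

theorem Hf_eq (ψ : C(UnitAddCircle, ℝ)) {r : ℝ} (hr : 0 < r) (ρ : Measure ℝ) (y : ℂ) :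
    Hf ψ r ρ y = ∫ a : ℝ, ((1 / r : ℝ) : ℂ) * Mf ψ ((y + a) / r) ∂ρ := by
  unfold Hf
  congr 1
  funext a
  exact inner_eq ψ hr y a

theorem inner_int {ψ : C(UnitAddCircle, ℝ)} (hψ : IsSemi ψ) {r : ℝ} (hr : 0 < r) {y : ℂ}
    (hy : y.im < 0) (ρ : Measure ℝ) [IsProbabilityMeasure ρ] :
    Integrable (fun a : ℝ => ((1 / r : ℝ) : ℂ) * Mf ψ ((y + a) / r)) ρ :=
  Integrable.of_bound (inner_cont hψ hr hy).aestronglyMeasurable (2 / r)
    (ae_of_all _ fun a => inner_bound hψ hr hy a)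

theorem Hf_bound {ψ : C(UnitAddCircle, ℝ)} (hψ : IsSemi ψ) {r : ℝ} (hr : 0 < r) {y : ℂ}
    (hy : y.im < 0) (ρ : Measure ℝ) [IsProbabilityMeasure ρ] : ‖Hf ψ r ρ y‖ ≤ 2 / r := by
  rw [Hf_eq ψ hr]
  have := norm_integral_le_of_norm_le_const (μ := ρ)
    (ae_of_all _ fun a : ℝ => inner_bound hψ hr hy a)
  simpa using this

theorem Hf_holder {ψ : C(UnitAddCircle, ℝ)} (hψ : IsSemi ψ) {r : ℝ} (hr : 0 < r) {y y' : ℂ}
    (hy : y.im < 0) (hy' : y'.im < 0) (ρ : Measure ℝ) [IsProbabilityMeasure ρ] :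
    ‖Hf ψ r ρ y - Hf ψ r ρ y'‖ ≤ 2 / r * Real.sqrt (2 / r * ‖y - y'‖) := by
  rw [Hf_eq ψ hr, Hf_eq ψ hr, ← integral_sub (inner_int hψ hr hy ρ) (inner_int hψ hr hy' ρ)]
  have h1 : ∀ a : ℝ, ‖((1 / r : ℝ) : ℂ) * Mf ψ ((y + a) / r) -
      ((1 / r : ℝ) : ℂ) * Mf ψ ((y' + a) / r)‖ ≤ 2 / r * Real.sqrt (2 / r * ‖y - y'‖) := by
    intro a
    have := inner_holder hψ hr hy hy' a a
    rw [sub_self a, abs_zero, add_zero] at this
    exact this
  have := norm_integral_le_of_norm_le_const (μ := ρ) (ae_of_all _ h1)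
  simpa using this

theorem inner_im {ψ : C(UnitAddCircle, ℝ)} {r : ℝ} (hr : 0 < r) {y : ℂ}
    (hy : y.im < 0) (a : ℝ) : 0 ≤ (((1 / r : ℝ) : ℂ) * Mf ψ ((y + a) / r)).im := by
  rw [Complex.im_ofReal_mul]
  exact mul_nonneg (by positivity) (Mf_im ψ (im_div hy hr a))

theorem inner_im_lower {ψ : C(UnitAddCircle, ℝ)} (hψ : IsSemi ψ) {r : ℝ} (hr : 0 < r) {y : ℂ}
    (hy : y.im < 0) {a : ℝ} (h1 : |y.re + a| ≤ 3 / 8 * r) (h2 : -y.im ≤ 1) :
    1 / r * (9 / 5 / (2 * (3 / 8 + 1 / r) + 1)) ≤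
      (((1 / r : ℝ) : ℂ) * Mf ψ ((y + a) / r)).im := by
  rw [Complex.im_ofReal_mul]
  have hd := im_div hy hr a
  obtain ⟨a1, a2, a3, -⟩ := Mf_props hψ hd
  have h3 : |((y + a) / (r : ℂ)).re| ≤ 3 / 8 := by
    rw [Complex.div_ofReal_re, abs_div, abs_of_pos hr, div_le_iff₀ hr]
    simpa using h1
  have h4 : |((y + a) / (r : ℂ)).im| ≤ 1 / r := by
    rw [Complex.div_ofReal_im, abs_div, abs_of_pos hr]
    have : |(y + (a : ℂ)).im| ≤ 1 := by
      simp only [Complex.add_im, Complex.ofReal_im, add_zero]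
      rw [abs_of_neg hy]
      exact h2
    gcongr
  have h5 : ‖(y + a) / (r : ℂ)‖ ≤ 3 / 8 + 1 / r :=
    (Complex.norm_le_abs_re_add_abs_im _).trans (add_le_add h3 h4)
  have h6 := im_lower a1 a2 a3 h3 h5
  have h7 : (Mf ψ ((y + a) / r) / 2).im = (Mf ψ ((y + a) / r)).im / 2 := by
    have : (Mf ψ ((y + a) / r) / 2) = ((1 / 2 : ℝ) : ℂ) * Mf ψ ((y + a) / r) := by
      push_cast; ring
    rw [this, Complex.im_ofReal_mul]
    ring
  rw [h7] at h6
  have h8 : 9 / 5 / (2 * (3 / 8 + 1 / r) + 1) ≤ (Mf ψ ((y + a) / r)).im := by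
    have e : 9 / 5 / (2 * (3 / 8 + 1 / r) + 1) = 2 * (9 / 10 / (2 * (3 / 8 + 1 / r) + 1)) := by
      ring
    rw [e]
    linarith
  exact mul_le_mul_of_nonneg_left h8 (by positivity)

theorem Hf_im {ψ : C(UnitAddCircle, ℝ)} (hψ : IsSemi ψ) {r : ℝ} (hr : 0 < r) {y : ℂ}
    (hy : y.im < 0) (ρ : Measure ℝ) [IsProbabilityMeasure ρ] :
    (Hf ψ r ρ y).im = ∫ a : ℝ, (((1 / r : ℝ) : ℂ) * Mf ψ ((y + a) / r)).im ∂ρ := by
  rw [Hf_eq ψ hr]
  exact (integral_im (inner_int hψ hr hy ρ)).symm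

theorem Hf_im_nonneg {ψ : C(UnitAddCircle, ℝ)} (hψ : IsSemi ψ) {r : ℝ} (hr : 0 < r) {y : ℂ}
    (hy : y.im < 0) (ρ : Measure ℝ) [IsProbabilityMeasure ρ] : 0 ≤ (Hf ψ r ρ y).im := by
  rw [Hf_im hψ hr hy]
  exact integral_nonneg fun a => inner_im hr hy a

theorem Hf_im_lower {ψ : C(UnitAddCircle, ℝ)} (hψ : IsSemi ψ) {r : ℝ} (hr : 0 < r) {y : ℂ}
    (hy : y.im < 0) (ρ : Measure ℝ) [IsProbabilityMeasure ρ]
    (hρ : ρ (Set.Icc (-(r / 8)) (r / 8))ᶜ = 0) (h1 : |y.re| ≤ r / 4) (h2 : -y.im ≤ 1) :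
    1 / r * (9 / 5 / (2 * (3 / 8 + 1 / r) + 1)) ≤ (Hf ψ r ρ y).im := by
  rw [Hf_im hψ hr hy]
  have h3 : ∀ᵐ (a : ℝ) ∂ρ, 1 / r * (9 / 5 / (2 * (3 / 8 + 1 / r) + 1)) ≤
      (((1 / r : ℝ) : ℂ) * Mf ψ ((y + a) / r)).im := by
    have h4 : ∀ᵐ a ∂ρ, a ∈ Set.Icc (-(r / 8)) (r / 8) := by
      rw [ae_iff]
      exact hρ
    filter_upwards [h4] with a ha
    refine inner_im_lower hψ hr hy ?_ h2
    have : |a| ≤ r / 8 := abs_le.2 ha
    calc |y.re + a| ≤ |y.re| + |a| := abs_add_le _ _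
      _ ≤ r / 4 + r / 8 := add_le_add h1 this
      _ = _ := by ring
  have h5 := integral_mono_ae (μ := ρ) (integrable_const _) (inner_int hψ hr hy ρ).im h3
  simpa using h5

/-! ### The function `Bs` -/

theorem meas_lev (ψ : C(UnitAddCircle, ℝ)) (r : ℝ) :
    Measurable fun φ : ℝ => r * ψ (φ : UnitAddCircle) :=
  (continuous_const.mul (cont_psi ψ)).measurable

instance vol_prob : IsProbabilityMeasure (volume.restrict (Set.Ioc (0 : ℝ) 1)) := by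
  refine ⟨?_⟩
  simp

instance lev_prob (ψ : C(UnitAddCircle, ℝ)) (r : ℝ) : IsProbabilityMeasure (lev ψ r) := by
  unfold lev
  exact Measure.isProbabilityMeasure_map (meas_lev ψ r).aemeasurable

theorem conv_eq (ψ : C(UnitAddCircle, ℝ)) (r : ℝ) (ρ : Measure ℝ) [IsProbabilityMeasure ρ] {y : ℂ}
    (hy : y.im < 0) : ∫ a, 1 / (y + (a : ℂ)) ∂((lev ψ r).conv ρ) = Hf ψ r ρ y := by
  unfold Hf Measure.conv
  have hc := cont_inv hy
  rw [integral_map (by fun_prop) hc.aestronglyMeasurable]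
  rw [integral_prod_symm]
  · congr 1
    funext a
    unfold lev
    rw [integral_map (meas_lev ψ r).aemeasurable]
    exact (hc.comp (by fun_prop : Continuous fun t : ℝ => t + a)).aestronglyMeasurable
  · refine Integrable.of_bound ?_ (1 / (-y.im)) (ae_of_all _ fun p => (inv_bound hy _).2)
    exact (hc.comp (by fun_prop : Continuous fun p : ℝ × ℝ => p.1 + p.2)).aestronglyMeasurable

/-- The shift. -/
noncomputable def ys (x s : ℂ) : ℂ := x - Complex.I * (1 + s) / (1 - s)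

theorem ys_im {x s : ℂ} (hx : x.im < 0) (hs : ‖s‖ ≤ 1) : (ys x s).im < 0 := by
  have e : (ys x s).im = x.im - (1 - ‖s‖ ^ 2) / Complex.normSq (1 - s) := by
    unfold ys
    rw [Complex.sub_im, Complex.div_im, Complex.sq_norm, Complex.normSq_apply s]
    simp only [Complex.mul_re, Complex.mul_im, Complex.I_re, Complex.I_im, Complex.add_re,
      Complex.add_im, Complex.one_re, Complex.one_im, Complex.sub_re, Complex.sub_im]
    ring
  rw [e]
  have h1 : ‖s‖ ^ 2 ≤ 1 := pow_le_one₀ (norm_nonneg _) hs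
  have h2 : 0 ≤ (1 - ‖s‖ ^ 2) / Complex.normSq (1 - s) :=
    div_nonneg (by linarith) (Complex.normSq_nonneg _)
  linarith

theorem beta_eq {x s : ℂ} (hx : x.im < 0) (hs : ‖s‖ ≤ 1) (hs1 : 1 - s ≠ 0) (a : ℝ) :
    cayx x a / (1 - cayx x a * s) =
      1 / (1 - s) + 2 * Complex.I / (1 - s) ^ 2 * (1 / (ys x s + a)) := by
  have h1 : x + a - Complex.I ≠ 0 := by
    intro h
    have := congrArg Complex.im h
    simp at this
    linarith
  have h2 : ys x s + a ≠ 0 := (inv_bound (ys_im hx hs) a).1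
  have h3 : (1 - s) * (ys x s + a) = (1 - s) * (x + a) - Complex.I * (1 + s) := by
    unfold ys
    field_simp
    ring
  have h4 : (1 - s) * (x + a) - Complex.I * (1 + s) ≠ 0 := by
    rw [← h3]
    exact mul_ne_zero hs1 h2
  have h5 : 1 - cayx x a * s =
      ((1 - s) * (x + a) - Complex.I * (1 + s)) / (x + a - Complex.I) := by
    unfold cayx
    rw [eq_div_iff h1]
    field_simp
    ring
  have h6 : 1 / (ys x s + a) = (1 - s) / ((1 - s) * (x + a) - Complex.I * (1 + s)) := by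
    rw [← h3]
    field_simp
  rw [h5, h6]
  unfold cayx
  generalize hD : (1 - s) * (x + (a : ℂ)) - Complex.I * (1 + s) = D at h4
  have h7 : x + (a : ℂ) + Complex.I = (D + 2 * Complex.I) / (1 - s) := by
    rw [eq_div_iff hs1, ← hD]; ring
  rw [h7]
  generalize x + (a : ℂ) - Complex.I = E at h1
  field_simp

theorem Bs_eq (ψ : C(UnitAddCircle, ℝ)) (r : ℝ) (ρ : Measure ℝ) [IsProbabilityMeasure ρ]
    {x s : ℂ} (hx : x.im < 0) (hs : ‖s‖ ≤ 1) (hs1 : 1 - s ≠ 0) :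
    Bs ((lev ψ r).conv ρ) (cayx x) s =
      1 / (1 - s) + 2 * Complex.I / (1 - s) ^ 2 * Hf ψ r ρ (ys x s) := by
  have hy := ys_im hx hs
  unfold Bs
  simp_rw [beta_eq hx hs hs1]
  have hI : Integrable (fun a : ℝ => 1 / (ys x s + (a : ℂ))) ((lev ψ r).conv ρ) :=
    Integrable.of_bound (cont_inv hy).aestronglyMeasurable (1 / (-(ys x s).im))
      (ae_of_all _ fun p => (inv_bound hy _).2)
  rw [integral_add (integrable_const _) (hI.const_mul _), integral_const_mul, conv_eq ψ r ρ hy]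
  simp

/-! ### The scalar estimate -/

theorem sq_diff (u v : ℂ) : |‖u‖ ^ 2 - ‖v‖ ^ 2| ≤ ‖u - v‖ * (‖u‖ + ‖v‖) := by
  have e : ‖u‖ ^ 2 - ‖v‖ ^ 2 = (‖u‖ - ‖v‖) * (‖u‖ + ‖v‖) := by ring
  rw [e, abs_mul, abs_of_nonneg (by positivity : 0 ≤ ‖u‖ + ‖v‖)]
  exact mul_le_mul_of_nonneg_right (abs_norm_sub_norm_le u v) (by positivity)

theorem one_le_sub {s : ℂ} {δ : ℝ} (hs1 : ‖s + 1‖ ≤ 4 * δ) (hδ : δ ≤ 1 / 4) : 1 ≤ ‖1 - s‖ := by
  have h1 : ‖(2 : ℂ)‖ ≤ ‖1 - s‖ + ‖s + 1‖ := by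
    have : (2 : ℂ) = (1 - s) + (s + 1) := by ring
    calc ‖(2 : ℂ)‖ = ‖(1 - s) + (s + 1)‖ := by rw [← this]
      _ ≤ _ := norm_add_le _ _
  simp only [Complex.norm_ofNat] at h1
  linarith

/-- The constant. -/
noncomputable def KK (h Kh : ℝ) : ℝ :=
  (4 * (1 + 2 * h) + (2 + 8 * h + Kh)) * (2 * (2 + 2 * h)) + (2 + 8 * h + Kh) * (2 * (1 + 2 * h))

theorem scal {s H G B : ℂ} {δ h Kh : ℝ} (hs : ‖s‖ ≤ 1) (hs1 : ‖s + 1‖ ≤ 4 * δ)
    (hδ0 : 0 ≤ δ) (hδ : δ ≤ 1 / 4) (hH : ‖H‖ ≤ h) (hG : ‖G‖ ≤ h) (hKh : 0 ≤ Kh)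
    (hHG : ‖H - G‖ ≤ Kh * Real.sqrt δ)
    (hB : B = 1 / (1 - s) + 2 * Complex.I / (1 - s) ^ 2 * H) :
    ‖B‖ ≤ 1 + 2 * h ∧ |‖1 + s * B‖ ^ 2 - ‖B‖ ^ 2 - G.im| ≤ KK h Kh * Real.sqrt δ := by
  have h0 : 0 ≤ h := (norm_nonneg _).trans hH
  have hq : 1 ≤ ‖1 - s‖ := one_le_sub hs1 hδ
  have hne : 1 - s ≠ 0 := by
    intro h
    rw [h, norm_zero] at hq
    linarith
  have hsq : δ ≤ Real.sqrt δ := by
    apply Real.le_sqrt_of_sq_le
    nlinarith
  have hq2 : 1 ≤ ‖(1 - s) ^ 2‖ := by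
    rw [norm_pow]
    exact one_le_pow₀ hq
  have b1 : ‖1 / (1 - s)‖ ≤ 1 := by
    rw [norm_div, norm_one]
    exact (div_le_one (by linarith)).2 hq
  have b2 : ‖2 * Complex.I / (1 - s) ^ 2‖ ≤ 2 := by
    rw [norm_div, norm_mul]
    simp only [Complex.norm_ofNat, Complex.norm_I, mul_one]
    exact (div_le_iff₀ (by linarith)).2 (by linarith)
  have hBn : ‖B‖ ≤ 1 + 2 * h := by
    rw [hB]
    refine (norm_add_le _ _).trans ?_
    rw [norm_mul]
    have : ‖2 * Complex.I / (1 - s) ^ 2‖ * ‖H‖ ≤ 2 * h :=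
      mul_le_mul b2 hH (norm_nonneg _) (by norm_num)
    linarith
  refine ⟨hBn, ?_⟩
  set B₀ : ℂ := 1 / 2 + Complex.I / 2 * G with hB₀
  have hB₀n : ‖B₀‖ ≤ 1 + 2 * h := by
    rw [hB₀]
    refine (norm_add_le _ _).trans ?_
    rw [norm_mul]
    have e1 : ‖(1 / 2 : ℂ)‖ = 1 / 2 := by norm_num
    have e2 : ‖Complex.I / 2‖ = 1 / 2 := by
      rw [norm_div]
      simp
    rw [e1, e2]
    linarith
  have hF0 : ‖1 - B₀‖ ^ 2 - ‖B₀‖ ^ 2 = G.im := by
    have e1 : B₀.re = 1 / 2 - G.im / 2 := by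
      rw [hB₀]
      simp [Complex.add_re, Complex.mul_re]
      ring
    have e2 : B₀.im = G.re / 2 := by
      rw [hB₀]
      simp [Complex.add_im, Complex.mul_im]
      ring
    rw [Complex.sq_norm, Complex.sq_norm, Complex.normSq_apply, Complex.normSq_apply]
    simp only [Complex.sub_re, Complex.sub_im, Complex.one_re, Complex.one_im, e1, e2]
    ring
  have hd : ‖B - B₀‖ ≤ (2 + 8 * h + Kh) * Real.sqrt δ := by
    have e : B - B₀ = (1 + s) / (2 * (1 - s)) +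
        (Complex.I * ((1 + s) * (3 - s))) / (2 * (1 - s) ^ 2) * H + Complex.I / 2 * (H - G) := by
      rw [hB, hB₀]
      field_simp
      ring
    have c1 : ‖(1 + s) / (2 * (1 - s))‖ ≤ 2 * δ := by
      rw [norm_div, norm_mul]
      simp only [Complex.norm_ofNat]
      rw [div_le_iff₀ (by linarith)]
      have : ‖1 + s‖ ≤ 4 * δ := by rw [add_comm]; exact hs1
      nlinarith
    have c2 : ‖(Complex.I * ((1 + s) * (3 - s))) / (2 * (1 - s) ^ 2)‖ ≤ 8 * δ := by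
      rw [norm_div, norm_mul, norm_mul, norm_mul]
      simp only [Complex.norm_ofNat, Complex.norm_I, one_mul]
      rw [div_le_iff₀ (by linarith)]
      have d1 : ‖1 + s‖ ≤ 4 * δ := by rw [add_comm]; exact hs1
      have d2 : ‖3 - s‖ ≤ 4 := by
        refine (norm_sub_le _ _).trans ?_
        simp only [Complex.norm_ofNat]
        linarith
      calc ‖1 + s‖ * ‖3 - s‖ ≤ 4 * δ * 4 := mul_le_mul d1 d2 (norm_nonneg _) (by linarith)
        _ ≤ 8 * δ * (2 * ‖(1 - s) ^ 2‖) := by nlinarith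
    have c3 : ‖Complex.I / 2 * (H - G)‖ ≤ Kh * Real.sqrt δ := by
      rw [norm_mul]
      have e2 : ‖Complex.I / 2‖ = 1 / 2 := by
        rw [norm_div]
        simp
      rw [e2]
      have := norm_nonneg (H - G)
      linarith
    rw [e]
    refine (norm_add₃_le).trans ?_
    rw [norm_mul]
    have c4 : ‖(Complex.I * ((1 + s) * (3 - s))) / (2 * (1 - s) ^ 2)‖ * ‖H‖ ≤ 8 * δ * h :=
      mul_le_mul c2 hH (norm_nonneg _) (by linarith)
    have c5 : 8 * δ * h ≤ 8 * h * Real.sqrt δ := by nlinarith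
    nlinarith
  have hu : |‖1 + s * B‖ ^ 2 - ‖1 - B₀‖ ^ 2| ≤
      (4 * (1 + 2 * h) + (2 + 8 * h + Kh)) * Real.sqrt δ * (2 * (2 + 2 * h)) := by
    refine (sq_diff _ _).trans ?_
    have g1 : ‖1 + s * B - (1 - B₀)‖ ≤ (4 * (1 + 2 * h) + (2 + 8 * h + Kh)) * Real.sqrt δ := by
      have e : 1 + s * B - (1 - B₀) = (s + 1) * B - (B - B₀) := by ring
      rw [e]
      refine (norm_sub_le _ _).trans ?_
      rw [norm_mul]
      have g2 : ‖s + 1‖ * ‖B‖ ≤ 4 * δ * (1 + 2 * h) :=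
        mul_le_mul hs1 hBn (norm_nonneg _) (by linarith)
      have g3 : 4 * δ * (1 + 2 * h) ≤ 4 * (1 + 2 * h) * Real.sqrt δ := by nlinarith
      linarith
    have g4 : ‖1 + s * B‖ ≤ 2 + 2 * h := by
      refine (norm_add_le _ _).trans ?_
      rw [norm_one, norm_mul]
      have : ‖s‖ * ‖B‖ ≤ 1 * (1 + 2 * h) := mul_le_mul hs hBn (norm_nonneg _) zero_le_one
      linarith
    have g5 : ‖1 - B₀‖ ≤ 2 + 2 * h := by
      refine (norm_sub_le _ _).trans ?_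
      rw [norm_one]
      linarith
    exact mul_le_mul g1 (by linarith) (by positivity) (by positivity)
  have hv : |‖B‖ ^ 2 - ‖B₀‖ ^ 2| ≤
      (2 + 8 * h + Kh) * Real.sqrt δ * (2 * (1 + 2 * h)) := by
    refine (sq_diff _ _).trans ?_
    exact mul_le_mul hd (by linarith) (by positivity) (by positivity)
  have e : ‖1 + s * B‖ ^ 2 - ‖B‖ ^ 2 - G.im =
      (‖1 + s * B‖ ^ 2 - ‖1 - B₀‖ ^ 2) - (‖B‖ ^ 2 - ‖B₀‖ ^ 2) := by
    rw [← hF0]; ring
  rw [e]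
  refine (abs_sub _ _).trans ?_
  unfold KK
  linarith

/-! ### The torus -/

instance circ_prob : IsProbabilityMeasure (volume : Measure UnitAddCircle) :=
  ⟨UnitAddCircle.measure_univ⟩

instance tor_prob (d : ℕ) : IsProbabilityMeasure (volume : Measure (UnitAddTorus (Fin d))) := by
  infer_instance

theorem lap_surj (d : ℕ) {E : ℝ} (h0 : 0 ≤ E) (h1 : E ≤ 4 * d) : ∃ k, lap d k = E := by
  set L : ℝ → ℝ := fun t => lap d (fun _ => (t : UnitAddCircle)) with hL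
  have hc : Continuous L := by
    refine (lap d).continuous.comp ?_
    exact continuous_pi fun _ => AddCircle.continuous_mk' (1 : ℝ)
  have hL0 : L 0 = 0 := by
    simp [hL, lap]
  have hLh : L (1 / 2) = 4 * d := by
    simp only [hL, lap, ContinuousMap.coe_mk]
    have : ((fourier 1 : C(UnitAddCircle, ℂ)) ((1 / 2 : ℝ) : UnitAddCircle)).re = -1 := by
      rw [fourier_coe_apply]
      have e : 2 * (Real.pi : ℂ) * Complex.I * ((1 : ℤ) : ℂ) * ((1 / 2 : ℝ) : ℂ) / ((1 : ℝ) : ℂ) =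
          (Real.pi : ℂ) * Complex.I := by
        push_cast; ring
      rw [e, Complex.exp_pi_mul_I]
      simp
    rw [Finset.sum_congr rfl fun i _ => by rw [this]]
    simp
    ring
  have h2 : E ∈ Set.Icc (L 0) (L (1 / 2)) := by
    rw [hL0, hLh]; exact ⟨h0, h1⟩
  obtain ⟨t, -, ht⟩ := intermediate_value_Icc (by norm_num : (0 : ℝ) ≤ 1 / 2) hc.continuousOn h2
  exact ⟨_, ht⟩

/-- A bump around the level set. -/
noncomputable def bump (d : ℕ) (r E : ℝ) (k : UnitAddTorus (Fin d)) : ℝ :=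
  max 0 (1 - 4 / r * |lap d k - E|)

theorem bump_cont (d : ℕ) (r E : ℝ) : Continuous (bump d r E) := by
  unfold bump
  fun_prop

theorem bump_int (d : ℕ) (r E : ℝ) : Integrable (bump d r E) :=
  (bump_cont d r E).integrable_of_hasCompactSupport (HasCompactSupport.of_compactSpace _)

theorem bump_nonneg (d : ℕ) (r E : ℝ) (k) : 0 ≤ bump d r E k := le_max_left _ _

theorem bump_le (d : ℕ) {r : ℝ} (hr : 0 < r) (E : ℝ) (k) : bump d r E k ≤ 1 := by
  unfold bump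
  refine max_le zero_le_one ?_
  have : 0 ≤ 4 / r * |lap d k - E| := by positivity
  linarith

theorem gmin_exists (d : ℕ) {r : ℝ} (hr : 0 < r) :
    ∃ g : ℝ, 0 < g ∧ ∀ E : ℝ, 0 ≤ E → E ≤ 4 * d → g ≤ ∫ k, bump d r E k := by
  have hcont : Continuous fun E => ∫ k, bump d r E k := by
    refine continuous_of_dominated (fun E => (bump_cont d r E).aestronglyMeasurable)
      (bound := fun _ => 1) ?_ (integrable_const _) ?_
    · intro E
      refine ae_of_all _ fun k => ?_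
      rw [Real.norm_of_nonneg (bump_nonneg d r E k)]
      exact bump_le d hr E k
    · refine ae_of_all _ fun k => ?_
      unfold bump
      fun_prop
  have hpos : ∀ E : ℝ, 0 ≤ E → E ≤ 4 * d → 0 < ∫ k, bump d r E k := by
    intro E h0 h1
    obtain ⟨k, hk⟩ := lap_surj d h0 h1
    refine (bump_cont d r E).integral_pos_of_hasCompactSupport_nonneg_nonzero (x := k)
      (HasCompactSupport.of_compactSpace _) (bump_nonneg d r E) ?_
    simp [bump, hk]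
  obtain ⟨E₀, hE₀, hmin⟩ := (isCompact_Icc (a := (0 : ℝ)) (b := 4 * (d : ℝ))).exists_isMinOn
    ⟨0, by constructor <;> positivity⟩ hcont.continuousOn
  refine ⟨∫ k, bump d r E₀ k, hpos E₀ hE₀.1 hE₀.2, fun E h0 h1 => ?_⟩
  exact hmin ⟨h0, h1⟩

/-! ### Main theorem -/

theorem ys_sub {x s : ℂ} : ys x s - x = -(Complex.I * (1 + s) / (1 - s)) := by
  unfold ys; ring

theorem Bs_cont {ψ : C(UnitAddCircle, ℝ)} (hψ : IsSemi ψ) {r : ℝ} (hr : 0 < r) (ρ : Measure ℝ)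
    [IsProbabilityMeasure ρ] {d : ℕ} {z : ℂ} (hz : 0 < z.im) {s : C(UnitAddTorus (Fin d), ℂ)}
    (hs : ∀ k, ‖s k‖ ≤ 1) (hs1 : ∀ k, 1 - s k ≠ 0) :
    Continuous fun k => Bs ((lev ψ r).conv ρ) (wz (lap d) z k) (s k) := by
  have hx : ∀ k, ((lap d k : ℂ) - z).im < 0 := by
    intro k
    simp
    exact hz
  have e : (fun k => Bs ((lev ψ r).conv ρ) (wz (lap d) z k) (s k)) = fun k =>
      1 / (1 - s k) + 2 * Complex.I / (1 - s k) ^ 2 * Hf ψ r ρ (ys ((lap d k : ℂ) - z) (s k)) := by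
    funext k
    exact Bs_eq ψ r ρ (hx k) (hs k) (hs1 k)
  rw [e]
  have hy : Continuous fun k => ys ((lap d k : ℂ) - z) (s k) := by
    unfold ys
    refine Continuous.sub ?_ ?_
    · exact (Complex.continuous_ofReal.comp (lap d).continuous).sub continuous_const
    · exact (continuous_const.mul (continuous_const.add s.continuous)).div
        (continuous_const.sub s.continuous) hs1
  have hH : Continuous fun k => Hf ψ r ρ (ys ((lap d k : ℂ) - z) (s k)) := by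
    rw [continuous_iff_continuousAt]
    intro k₀
    rw [ContinuousAt, tendsto_iff_norm_sub_tendsto_zero]
    refine squeeze_zero (fun _ => norm_nonneg _)
      (fun k => Hf_holder hψ hr (ys_im (hx k) (hs k)) (ys_im (hx k₀) (hs k₀)) ρ) ?_
    have h1 : Continuous fun k => 2 / r * Real.sqrt (2 / r *
        ‖ys ((lap d k : ℂ) - z) (s k) - ys ((lap d k₀ : ℂ) - z) (s k₀)‖) := by fun_prop
    have h2 := h1.tendsto k₀
    simpa using h2
  refine Continuous.add ?_ ?_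
  · exact continuous_const.div (continuous_const.sub s.continuous) hs1
  · refine Continuous.mul ?_ hH
    exact continuous_const.div ((continuous_const.sub s.continuous).pow 2)
      fun k => pow_ne_zero 2 (hs1 k)

theorem main : Pool.Agent.W792.WA.S_BASEJ := by
  intro ψ hψ r d hr hd
  obtain ⟨g, hg, hgE⟩ := gmin_exists d hr
  set c₀ : ℝ := 1 / r * (9 / 5 / (2 * (3 / 8 + 1 / r) + 1)) with hc₀
  have hc₀p : 0 < c₀ := by positivity
  set Kh : ℝ := 2 / r * Real.sqrt (8 / r) with hKh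
  have hKh0 : 0 ≤ Kh := by positivity
  set K : ℝ := KK (2 / r) Kh with hK
  have hKp : 0 < K := by
    rw [hK]; unfold KK; positivity
  set δ₁ : ℝ := min (1 / 4) ((c₀ * g / (2 * K)) ^ 2) with hδ₁
  have hδp : 0 < δ₁ := lt_min (by norm_num) (by positivity)
  have hδ4 : δ₁ ≤ 1 / 4 := min_le_left _ _
  have hδs : Real.sqrt δ₁ ≤ c₀ * g / (2 * K) := by
    refine (Real.sqrt_le_sqrt (min_le_right _ _)).trans ?_
    rw [Real.sqrt_sq (by positivity)]
  refine ⟨r / 8, δ₁, c₀ * g / 2, 1 + 4 / r, by positivity, hδp, by positivity, ?_, ?_⟩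
  · have : 0 < 4 / r := by positivity
    linarith
  intro ρ hρ hS z hz s hs hs1
  have hsk : ∀ k, ‖s k‖ ≤ 1 := fun k => (s.norm_coe_le_norm k).trans hs
  have hne : ∀ k, 1 - s k ≠ 0 := by
    intro k h
    have := one_le_sub (hs1 k) hδ4
    rw [h, norm_zero] at this
    linarith
  have hzim : 0 < z.im := hz.2.2.1
  have hx : ∀ k, ((lap d k : ℂ) - z).im < 0 := by
    intro k
    simp
    exact hzim
  have hHG : ∀ k, ‖Hf ψ r ρ (ys ((lap d k : ℂ) - z) (s k)) - Hf ψ r ρ ((lap d k : ℂ) - z)‖ ≤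
      Kh * Real.sqrt δ₁ := by
    intro k
    refine (Hf_holder hψ hr (ys_im (hx k) (hsk k)) (hx k) ρ).trans ?_
    rw [ys_sub, norm_neg, norm_div, norm_mul, Complex.norm_I, one_mul, hKh, mul_assoc,
      ← Real.sqrt_mul (by positivity)]
    have h1 : ‖1 + s k‖ / ‖1 - s k‖ ≤ 4 * δ₁ := by
      have h2 := one_le_sub (hs1 k) hδ4
      have h3 : ‖1 + s k‖ ≤ 4 * δ₁ := by rw [add_comm]; exact hs1 k
      rw [div_le_iff₀ (by linarith)]
      nlinarith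
    have h4 : 2 / r * (‖1 + s k‖ / ‖1 - s k‖) ≤ 8 / r * δ₁ := by
      calc 2 / r * (‖1 + s k‖ / ‖1 - s k‖) ≤ 2 / r * (4 * δ₁) := by gcongr
        _ = 8 / r * δ₁ := by ring
    gcongr
  have hsc : ∀ k, ‖Bs ((lev ψ r).conv ρ) (wz (lap d) z k) (s k)‖ ≤ 1 + 2 * (2 / r) ∧
      |‖1 + s k * Bs ((lev ψ r).conv ρ) (wz (lap d) z k) (s k)‖ ^ 2 -
        ‖Bs ((lev ψ r).conv ρ) (wz (lap d) z k) (s k)‖ ^ 2 -
        (Hf ψ r ρ ((lap d k : ℂ) - z)).im| ≤ K * Real.sqrt δ₁ := fun k =>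
    scal (hsk k) (hs1 k) hδp.le hδ4 (Hf_bound hψ hr (ys_im (hx k) (hsk k)) ρ)
      (Hf_bound hψ hr (hx k) ρ) hKh0 (hHG k) (Bs_eq ψ r ρ (hx k) (hsk k) (hne k))
  refine ⟨fun k => ?_, ?_⟩
  · have := (hsc k).1
    have e : 1 + 2 * (2 / r) = 1 + 4 / r := by ring
    rw [e] at this
    exact this
  have hlow : ∀ k, c₀ * bump d r z.re k - K * Real.sqrt δ₁ ≤
      ‖1 + s k * Bs ((lev ψ r).conv ρ) (wz (lap d) z k) (s k)‖ ^ 2 -
        ‖Bs ((lev ψ r).conv ρ) (wz (lap d) z k) (s k)‖ ^ 2 := by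
    intro k
    have h1 := (abs_le.1 (hsc k).2).1
    have h2 : c₀ * bump d r z.re k ≤ (Hf ψ r ρ ((lap d k : ℂ) - z)).im := by
      by_cases hk : |lap d k - z.re| ≤ r / 4
      · have h3 : c₀ ≤ (Hf ψ r ρ ((lap d k : ℂ) - z)).im := by
          refine Hf_im_lower hψ hr (hx k) ρ hS ?_ ?_
          · simpa using hk
          · simp
            exact hz.2.2.2
        have h4 := bump_le d hr z.re k
        nlinarith
      · push Not at hk
        have h5 : bump d r z.re k = 0 := by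
          unfold bump
          refine max_eq_left ?_
          have : 1 < 4 / r * |lap d k - z.re| := by
            have e : 4 / r * (r / 4) = 1 := by field_simp
            calc (1 : ℝ) = 4 / r * (r / 4) := e.symm
              _ < _ := mul_lt_mul_of_pos_left hk (by positivity)
          linarith
        rw [h5, mul_zero]
        exact Hf_im_nonneg hψ hr (hx k) ρ
    linarith
  have hBc := Bs_cont hψ hr ρ hzim hsk hne
  have hFc : Continuous fun k => ‖1 + s k * Bs ((lev ψ r).conv ρ) (wz (lap d) z k) (s k)‖ ^ 2 -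
        ‖Bs ((lev ψ r).conv ρ) (wz (lap d) z k) (s k)‖ ^ 2 :=
    ((continuous_const.add (s.continuous.mul hBc)).norm.pow 2).sub (hBc.norm.pow 2)
  have hFi := hFc.integrable_of_hasCompactSupport (μ := volume) (HasCompactSupport.of_compactSpace _)
  have hbi := bump_int d r z.re
  have hmono := integral_mono ((hbi.const_mul c₀).sub (integrable_const (K * Real.sqrt δ₁))) hFi hlow
  refine le_trans ?_ hmono
  have e : ∫ k, (c₀ * bump d r z.re k - K * Real.sqrt δ₁) =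
      c₀ * (∫ k, bump d r z.re k) - K * Real.sqrt δ₁ := by
    rw [integral_sub (hbi.const_mul c₀) (integrable_const _), integral_const_mul]
    simp
  show c₀ * g / 2 ≤ ∫ k, (c₀ * bump d r z.re k - K * Real.sqrt δ₁)
  rw [e]
  have h1 := hgE z.re hz.1 hz.2.1
  have h2 : K * Real.sqrt δ₁ ≤ c₀ * g / 2 := by
    calc K * Real.sqrt δ₁ ≤ K * (c₀ * g / (2 * K)) := by gcongr
      _ = c₀ * g / 2 := by field_simp
  have h3 : c₀ * g ≤ c₀ * ∫ k, bump d r z.re k := by gcongr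
  linarith

end Pool.Agent.W335.WAB.BaseJ
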